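import Pool.Agent.helper65.GF.SpecG

set_option autoImplicit false

namespace Pool.Agent.GD

open Finset Metric Filter Topology

theorem YND_zero (a : ℕ → ℝ) (j : ℕ) : ∑ k ∈ range j, a k * (if k < j then (0 : ℝ) else EH (k - j)) = 0 := by
  apply Finset.sum_eq_zero
  intro k hk
  rw [if_pos (mem_range.mp hk), mul_zero]

theorem YND_E (r : ℕ) (h : 2 ≤ r) : EH r = 4 := by
  unfold EH
  rw [if_neg (by omega), if_neg (by omega)]

theorem YND_big (a : ℕ → ℝ) (j p : ℕ) (h : j + 1 ≤ p) :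
    a j + a (j + 1) + 2 * (∑ q ∈ Ioc (j + 1) p, (a (q - 1) + a q) + a p) =
      ∑ k ∈ range (p + 1), a k * (if k < j then (0 : ℝ) else EH (k - j)) := by
  induction p, h using Nat.le_induction with
  | base =>
    rw [Ioc_self, sum_empty, sum_range_succ, sum_range_succ, YND_zero, if_neg (lt_irrefl _), if_neg (by omega), Nat.sub_self,
      show j + 1 - j = 1 by omega]
    have e0 : EH 0 = 1 := by unfold EH; simp
    have e1 : EH 1 = 3 := by unfold EH; simp
    rw [e0, e1]
    ring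
  | succ p h ih =>
    rw [sum_range_succ, ← ih, Finset.sum_Ioc_succ_top h, if_neg (by omega), YND_E _ (by omega)]
    have : p + 1 - 1 = p := by omega
    rw [this]
    ring

theorem YND_aux (a : ℕ → ℝ) (j p : ℕ) (h : j ≤ p) :
    (a j + if j + 1 ≤ p then a (j + 1) else 0) + 2 * ∑ q ∈ Ioc (j + 1) (p + 1), (a (q - 1) + if q ≤ p then a q else 0) =
      ∑ k ∈ range (p + 1), a k * (if k < j then (0 : ℝ) else EH (k - j)) := by
  rcases Nat.eq_or_lt_of_le h with h1 | h1
  · subst h1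
    rw [if_neg (by omega), Ioc_self, sum_empty, sum_range_succ, YND_zero, if_neg (lt_irrefl _), Nat.sub_self]
    have e0 : EH 0 = 1 := by unfold EH; simp
    rw [e0]
    ring
  · rw [← YND_big a j p h1, if_pos (show j + 1 ≤ p from h1), Finset.sum_Ioc_succ_top (show j + 1 ≤ p from h1), if_neg (by omega)]
    have h2 : ∑ q ∈ Ioc (j + 1) p, (a (q - 1) + if q ≤ p then a q else 0) = ∑ q ∈ Ioc (j + 1) p, (a (q - 1) + a q) := by
      apply Finset.sum_congr rfl
      intro q hq
      rw [if_pos (mem_Ioc.mp hq).2]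
    rw [h2]
    have : p + 1 - 1 = p := by omega
    rw [this, add_zero]

/-- **YND** -/
theorem YND (h1 : YNB_stmt) : YND_stmt := by
  intro p n j hj hjp hpn
  obtain ⟨i, rfl⟩ : ∃ i, j = i + 1 := ⟨j - 1, by omega⟩
  have hip : i ≤ p := by omega
  have hB : BB (p + 1) n (i + 1) = AA (p + 1) n (i + 1) + 2 * ∑ q ∈ Ioc (i + 1) (p + 1), AA (p + 1) n q := rfl
  have hsum : ∑ q ∈ Ioc (i + 1) (p + 1), AA (p + 1) n q = ∑ q ∈ Ioc (i + 1) (p + 1), (if q = p + 1 then (1 : ℝ) else 0) +
      ∑ m ∈ Ioo p n, ∑ q ∈ Ioc (i + 1) (p + 1), (AH p m (q - 1) + if q ≤ p then AH p m q else 0) := by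
    rw [Finset.sum_comm, ← Finset.sum_add_distrib]
    apply Finset.sum_congr rfl
    intro q hq
    rw [mem_Ioc] at hq
    exact h1 p n q (by omega) hq.2 hpn
  have hbd : TH (p + 1 - (i + 1)) = (if i + 1 = p + 1 then (1 : ℝ) else 0) +
      2 * ∑ q ∈ Ioc (i + 1) (p + 1), (if q = p + 1 then (1 : ℝ) else 0) := by
    rw [Finset.sum_ite_eq']
    unfold TH
    by_cases hp : i = p
    · subst hp
      simp
    · rw [if_neg (by omega), if_neg (by omega), if_pos (mem_Ioc.mpr ⟨by omega, le_rfl⟩)]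
      ring
  have hin : ∑ m ∈ Ioo p n, ∑ k ∈ range (p + 1), AH p m k * (if k + 1 < i + 1 then 0 else EH (k + 1 - (i + 1))) =
      ∑ m ∈ Ioo p n, ((AH p m (i + 1 - 1) + if i + 1 ≤ p then AH p m (i + 1) else 0) +
        2 * ∑ q ∈ Ioc (i + 1) (p + 1), (AH p m (q - 1) + if q ≤ p then AH p m q else 0)) := by
    apply Finset.sum_congr rfl
    intro m _
    have := YND_aux (AH p m) i p hip
    rw [Nat.add_sub_cancel, this]
    apply Finset.sum_congr rfl
    intro k _
    have e1 : k + 1 - (i + 1) = k - i := by omega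
    rw [e1]
    by_cases hk : k < i
    · rw [if_pos hk, if_pos (by omega)]
    · rw [if_neg hk, if_neg (by omega)]
  rw [hin, hbd, hB, hsum, h1 p n (i + 1) hj hjp hpn, Finset.sum_add_distrib, ← Finset.mul_sum]
  ring

end Pool.Agent.GD
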